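import Pool.Agent.Helper6.GP.Goals
import Pool.Agent.Helper6.E.Nest

set_option linter.unusedVariables false
set_option linter.unusedSectionVars false

namespace Pool.Agent.Helper2.GP.DETG

open Matrix Equiv Filter Topology Pool.Agent.Helper15.An Pool.Agent.Helper6.GP
open scoped ComplexOrder
open Pool.Agent.Helper3.AK (lazyLaw)

theorem sqrt_nrm2 {D : ℕ} (v : Fin D → ℂ) :
    √(nrm2 v) = ‖(WithLp.toLp 2 v : EuclideanSpace ℂ (Fin D))‖ := by
  rw [EuclideanSpace.norm_eq]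
  rfl

theorem sqrt_nrm2_add {D : ℕ} (a b : Fin D → ℂ) :
    √(nrm2 (a + b)) ≤ √(nrm2 a) + √(nrm2 b) := by
  rw [sqrt_nrm2, sqrt_nrm2, sqrt_nrm2]
  exact norm_add_le (WithLp.toLp 2 a : EuclideanSpace ℂ (Fin D)) (WithLp.toLp 2 b)

section
variable {n D : ℕ} (ρ : Perm (Fin n) →* Matrix (Fin D) (Fin D) ℂ) (f : Fin D → ℂ)

/-- displacement -/
noncomputable def dd (g : Perm (Fin n)) : ℝ := √(nrm2 (ρ g *ᵥ f - f))

theorem dd_nonneg (g : Perm (Fin n)) : 0 ≤ dd ρ f g := Real.sqrt_nonneg _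

theorem dd_sq (g : Perm (Fin n)) : dd ρ f g ^ 2 = nrm2 (ρ g *ᵥ f - f) :=
  Real.sq_sqrt (nrm2_nonneg _)

theorem dd_one : dd ρ f 1 = 0 := by
  unfold dd
  rw [map_one, Matrix.one_mulVec, sub_self]
  simp [nrm2]

variable (hu : ∀ g, (ρ g)ᴴ * ρ g = 1)
include hu

theorem dd_mul (g h : Perm (Fin n)) : dd ρ f (g * h) ≤ dd ρ f g + dd ρ f h := by
  have h1 : ρ (g * h) *ᵥ f - f = ρ g *ᵥ (ρ h *ᵥ f - f) + (ρ g *ᵥ f - f) := by
    rw [map_mul, ← Matrix.mulVec_mulVec, Matrix.mulVec_sub]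
    abel
  unfold dd
  rw [h1]
  refine (sqrt_nrm2_add _ _).trans ?_
  rw [nrm2_unitary (hu g), add_comm]

theorem dd_inv (g : Perm (Fin n)) : dd ρ f g⁻¹ = dd ρ f g := by
  have h1 : nrm2 (ρ g *ᵥ (ρ g⁻¹ *ᵥ f - f)) = nrm2 (ρ g⁻¹ *ᵥ f - f) := nrm2_unitary (hu g) _
  have h2 : ρ g *ᵥ (ρ g⁻¹ *ᵥ f - f) = (-1 : ℝ) • (ρ g *ᵥ f - f) := by
    rw [Matrix.mulVec_sub, Matrix.mulVec_mulVec, ← map_mul, mul_inv_cancel, map_one,
      Matrix.one_mulVec]
    simp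
  unfold dd
  rw [← h1, h2, nrm2_smul]
  norm_num

theorem dd_pow (g : Perm (Fin n)) (M : ℕ) : dd ρ f (g ^ M) ≤ M * dd ρ f g := by
  induction M with
  | zero => simp [dd_one]
  | succ M ih =>
    rw [pow_succ]
    refine (dd_mul ρ f hu _ _).trans ?_
    push_cast
    linarith

theorem qf_eq (g : Perm (Fin n)) (hf : nrm2 f = 1) : qf (ρ g) f = 1 - dd ρ f g ^ 2 / 2 := by
  have h1 := nrm2_sub_unitary (hu g) f
  rw [dd_sq, h1, hf]
  ring

end

theorem thm (hlzw : S_LZW) (hcav : S_CAV) (hnear : S_NEAR) : S_DETG := by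
  classical
  intro n D k t t₂ M S₀ ρ x η θ hirr hk hkt hη h10 h2 hθ hhits hchar hent
  have hu := hirr.unit
  have hW := wop_isHermitian ρ hu (tupW_isSP (Nat.succ_pos k) x)
  have hH : ((1 - η) • (1 : Matrix (Fin D) (Fin D) ℂ) - wop ρ (tupW x)).IsHermitian := by
    unfold Matrix.IsHermitian
    rw [conjTranspose_sub, conjTranspose_smul, hW.eq, conjTranspose_one]
    simp
  refine posSemidef_of_qf hH fun v => ?_
  rw [qf_sub, qf_smul, qf_one]
  by_contra hneg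
  rw [not_le] at hneg
  -- normalize
  have hv0 : v ≠ 0 := by
    rintro rfl
    simp [nrm2, qf] at hneg
  have hNpos : 0 < nrm2 v := Pool.Agent.Helper6.E.nrm2_pos hv0
  obtain ⟨f, hf1, hfW⟩ : ∃ f : Fin D → ℂ, nrm2 f = 1 ∧ 1 - qf (wop ρ (tupW x)) f < η := by
    refine ⟨(√(nrm2 v))⁻¹ • v, ?_, ?_⟩
    · rw [nrm2_smul, inv_pow, Real.sq_sqrt hNpos.le, inv_mul_cancel₀ hNpos.ne']
    · rw [Pool.Agent.Helper6.E.qf_smul_vec, inv_pow, Real.sq_sqrt hNpos.le]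
      have h3 : 1 - η < (nrm2 v)⁻¹ * qf (wop ρ (tupW x)) v := by
        rw [inv_mul_eq_div, lt_div_iff₀ hNpos]
        linarith
      linarith
  -- nearness
  obtain ⟨hn1, hn2, hn3⟩ := hnear n D k t ρ f hu hk
  obtain ⟨hm1, -, -⟩ := hnear n D (k + 1) t₂ ρ f hu (by omega)
  set z : Fin k → Pool.Agent.Helper15.An.Alt n := Fin.init x with hz
  have hA : ∑ g, lazyLaw z t g * nrm2 (ρ g *ᵥ f - f) ≤ 2 * t * η := by
    have h3 := hn1 z
    have h4 := hn3 x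
    rw [hf1] at h3 h4
    have h5 : (0 : ℝ) ≤ t := Nat.cast_nonneg t
    nlinarith
  have hB : ∑ g, lazyLaw x t₂ g * nrm2 (ρ g *ᵥ f - f) ≤ t₂ * η := by
    have h3 := hm1 x
    rw [hf1] at h3
    have h5 : (0 : ℝ) ≤ t₂ := Nat.cast_nonneg t₂
    nlinarith
  have hy : nrm2 (ρ (x (Fin.last k) : Perm (Fin n)) *ᵥ f - f) ≤ 2 * t * η := by
    have h3 := hn2 x (Fin.last k)
    rw [hf1] at h3
    have h5 : ((k : ℝ) + 1) ≤ t := by exact_mod_cast hkt
    have h6 : (0 : ℝ) ≤ k := Nat.cast_nonneg k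
    have h7 : 2 * ((k : ℝ) + 1) * (1 - qf (wop ρ (tupW x)) f) ≤ 2 * ((k : ℝ) + 1) * η :=
      mul_le_mul_of_nonneg_left hfW.le (by positivity)
    have h8 : 2 * ((k : ℝ) + 1) * η ≤ 2 * t * η := by gcongr
    linarith
  have htpos : (0 : ℝ) < t := by
    have : 0 < t := by omega
    exact_mod_cast this
  have hnn : ∀ g, 0 ≤ lazyLaw z t g := (hlzw n k t z hk).2.2.2.1
  -- Markov
  set B : Finset (Perm (Fin n)) := Finset.univ.filter fun g =>
    16 * t * η < nrm2 (ρ g *ᵥ f - f) with hBdef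
  have hBm : ∑ g ∈ B, lazyLaw z t g ≤ 1 / 8 := by
    have h3 : (∑ g ∈ B, lazyLaw z t g) * (16 * t * η) ≤ 2 * t * η := by
      refine le_trans ?_ hA
      rw [Finset.sum_mul]
      refine (Finset.sum_le_sum fun g hg => ?_).trans
        (Finset.sum_le_sum_of_subset_of_nonneg (Finset.subset_univ B)
          fun g _ _ => mul_nonneg (hnn g) (nrm2_nonneg _))
      have h4 := (Finset.mem_filter.1 hg).2
      exact mul_le_mul_of_nonneg_left h4.le (hnn g)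
    have h4 : 0 < t * η := by positivity
    by_contra hcon
    rw [not_le] at hcon
    nlinarith
  obtain ⟨g₁, g₂, hg₁, hg₂, hE⟩ := hhits B hBm
  have hd1 : ∀ g : Perm (Fin n), g ∉ B → dd ρ f g ≤ 4 * √(t * η) := by
    intro g hg
    have h3 : nrm2 (ρ g *ᵥ f - f) ≤ 16 * t * η := by
      by_contra hcon
      rw [not_le] at hcon
      exact hg (Finset.mem_filter.2 ⟨Finset.mem_univ _, hcon⟩)
    have h4 : (4 : ℝ) * √(t * η) = √(16 * t * η) := by
      rw [show (16 : ℝ) * t * η = 4 ^ 2 * (t * η) by ring,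
        Real.sqrt_mul (by norm_num : (0 : ℝ) ≤ 4 ^ 2) (t * η), Real.sqrt_sq (by norm_num)]
    rw [h4]
    exact Real.sqrt_le_sqrt h3
  have hdy : dd ρ f (x (Fin.last k) : Perm (Fin n)) ≤ 2 * √(t * η) := by
    have h4 : (2 : ℝ) * √(t * η) = √(4 * t * η) := by
      rw [show (4 : ℝ) * t * η = 2 ^ 2 * (t * η) by ring,
        Real.sqrt_mul (by norm_num : (0 : ℝ) ≤ 2 ^ 2) (t * η), Real.sqrt_sq (by norm_num)]
    rw [h4]
    refine Real.sqrt_le_sqrt (hy.trans ?_)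
    have : 0 < t * η := by positivity
    linarith
  -- the element c
  set w : Perm (Fin n) := ((x (Fin.last k) * g₁ * g₂ : Pool.Agent.Helper15.An.Alt n) :
    Perm (Fin n)) with hw
  have hdw : dd ρ f w ≤ 10 * √(t * η) := by
    have e1 : w = (x (Fin.last k) : Perm (Fin n)) * (g₁ : Perm (Fin n)) * (g₂ : Perm (Fin n)) := by
      rw [hw]; simp
    rw [e1]
    have h3 := dd_mul ρ f hu ((x (Fin.last k) : Perm (Fin n)) * (g₁ : Perm (Fin n)))
      (g₂ : Perm (Fin n))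
    have h4 := dd_mul ρ f hu (x (Fin.last k) : Perm (Fin n)) (g₁ : Perm (Fin n))
    have h5 := hd1 _ hg₁
    have h6 := hd1 _ hg₂
    linarith
  set c : Perm (Fin n) := w ^ M with hc
  have hcs : c.support.card = S₀ := hE
  have hdc : dd ρ f c ≤ 1 / 8 := by
    refine (dd_pow ρ f hu w M).trans ?_
    refine le_trans ?_ h10
    have : (M : ℝ) * dd ρ f w ≤ M * (10 * √(t * η)) :=
      mul_le_mul_of_nonneg_left hdw (Nat.cast_nonneg M)
    linarith
  -- average over conjugates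
  have hLW := hlzw n (k + 1) t₂ x (by omega)
  have hnn2 : ∀ g, 0 ≤ lazyLaw x t₂ g := hLW.2.2.2.1
  have hs2 : ∑ g, lazyLaw x t₂ g = 1 := hLW.2.2.2.2
  have hlow : ∀ h : Perm (Fin n), 1 - 1 / 64 - 4 * nrm2 (ρ h *ᵥ f - f) ≤
      qf (ρ (h * c * h⁻¹)) f := by
    intro h
    rw [qf_eq ρ f hu _ hf1]
    have h3 := dd_mul ρ f hu (h * c) h⁻¹
    have h4 := dd_mul ρ f hu h c
    rw [dd_inv ρ f hu] at h3
    have h5 := dd_nonneg ρ f (h * c * h⁻¹)
    have h6 := dd_nonneg ρ f h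
    rw [← dd_sq]
    have h7 : dd ρ f (h * c * h⁻¹) ≤ 2 * dd ρ f h + 1 / 8 := by linarith
    have h8 : dd ρ f (h * c * h⁻¹) ^ 2 ≤ (2 * dd ρ f h + 1 / 8) ^ 2 := by gcongr
    nlinarith [sq_nonneg (2 * dd ρ f h - 1 / 8)]
  have hsum : 1 - 1 / 64 - 4 * (t₂ * η) ≤ ∑ h, lazyLaw x t₂ h * qf (ρ (h * c * h⁻¹)) f := by
    calc 1 - 1 / 64 - 4 * (t₂ * η) ≤
        ∑ h, lazyLaw x t₂ h * (1 - 1 / 64 - 4 * nrm2 (ρ h *ᵥ f - f)) := by
          simp_rw [mul_sub]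
          rw [Finset.sum_sub_distrib, Finset.sum_sub_distrib]
          have e1 : ∑ h, lazyLaw x t₂ h * 1 = 1 := by simp [hs2]
          have e2 : ∑ h, lazyLaw x t₂ h * (1 / 64) = 1 / 64 := by
            rw [← Finset.sum_mul, hs2, one_mul]
          have e3 : ∑ h, lazyLaw x t₂ h * (4 * nrm2 (ρ h *ᵥ f - f)) =
              4 * ∑ h, lazyLaw x t₂ h * nrm2 (ρ h *ᵥ f - f) := by
            rw [Finset.mul_sum]
            exact Finset.sum_congr rfl fun h _ => by ring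
          rw [e1, e2, e3]
          linarith
      _ ≤ _ := Finset.sum_le_sum fun h _ => mul_le_mul_of_nonneg_left (hlow h) (hnn2 h)
  have ht2 : t₂ * η ≤ 1 / 256 := by
    have h3 : √(t₂ * η) ≤ 1 / 16 := by linarith
    have h4 : 0 ≤ t₂ * η := by positivity
    have h5 := Real.sq_sqrt h4
    have h6 := Real.sqrt_nonneg (t₂ * η)
    nlinarith
  have hcv := hcav n D S₀ ρ c (lazyLaw x t₂) θ f hirr hcs hent hf1
  have hD : (0 : ℝ) < D := by exact_mod_cast hirr.pos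
  have htr : ‖trace (ρ c)‖ / D ≤ 1 / 2 := by
    rw [div_le_iff₀ hD]
    have := hchar c hcs
    linarith
  have h9 := le_abs_self (∑ h, lazyLaw x t₂ h * qf (ρ (h * c * h⁻¹)) f)
  linarith

end Pool.Agent.Helper2.GP.DETG
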