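import Pool.Agent.Helper89.GP.GoalsA
import Pool.Agent.Helper89.GP.Basic

/-!
# GP, packet POS
-/

namespace Pool.Agent.Helper2.GP

open Finset Pool.Agent.Helper89.GP

theorem bq_nonneg {n : ℕ} (R : Fin n → Fin n → Prop) (u v : Fin n) (k : ℕ) :
    0 ≤ bq R u v k := Pr_nonneg _

theorem exists_bq_pos {n : ℕ} {R : Fin n → Fin n → Prop} {u v : Fin n}
    (h : ∃ σ ∈ LX R, po σ u < po σ v) : ∃ k ∈ range n, 0 < bq R u v k := by
  obtain ⟨σ, hσ, hlt⟩ := h
  have hn := po_lt_n σ v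
  refine ⟨po σ v - po σ u - 1, ?_, ?_⟩
  · rw [mem_range]; omega
  · exact Pr_pos hσ (by omega)

theorem Ff_pos {n : ℕ} {R : Fin n → Fin n → Prop} {u v : Fin n}
    (h : ∃ σ ∈ LX R, po σ u < po σ v) {t : ℝ} (ht : 0 < t) : 0 < Ff R u v t := by
  obtain ⟨k, hk, hpos⟩ := exists_bq_pos h
  unfold Ff
  refine Finset.sum_pos' (fun i _ => ?_) ⟨k, hk, ?_⟩
  · have := bq_nonneg R u v i
    positivity
  · positivity

theorem Ff_zero {n : ℕ} (R : Fin n → Fin n → Prop) (u v : Fin n) :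
    Ff R u v 0 = bq R u v 0 := by
  unfold Ff
  have hn : 0 < n := Fin.pos u
  rw [Finset.sum_eq_single 0]
  · simp
  · intro k _ hk
    simp [zero_pow hk]
  · intro h
    exact absurd (mem_range.2 hn) h

/-- POS. -/
theorem pos (h1 : LcgStmt) : PosStmt := by
  intro n R u v hI
  have hLC := h1 n R u v (-1) 1 (1 / 2) hI.nonempty hI.ne (by norm_num) (by norm_num)
  have e0 : (1 - 1 / 2 : ℝ) * (-1) + 1 / 2 * 1 = 0 := by norm_num
  rw [e0] at hLC
  have g0 : Gd R u v 0 = bq R u v 0 := by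
    unfold Gd
    rw [if_pos le_rfl, Ff_zero]
    simp
  have g1 : 0 < Gd R u v 1 := by
    unfold Gd
    rw [if_pos zero_le_one]
    have := Ff_pos hI.1 (t := 1) one_pos
    positivity
  have g2 : 0 < Gd R u v (-1) := by
    unfold Gd
    rw [if_neg (by norm_num)]
    have := Ff_pos hI.2 (t := 1) one_pos
    rw [neg_neg]
    positivity
  rw [g0] at hLC
  refine lt_of_lt_of_le ?_ hLC
  positivity

end Pool.Agent.Helper2.GP
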